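import Pool.Agent.Helper56.Cp.BoxGroup

set_option autoImplicit false

open Set Filter Topology
open scoped Cardinal
open Pool.Agent.Helper56.Cp

namespace Pool.Agent.Results.MP_110f0a_gt.KSpaceNotFrechet

universe u

/-- homeomorphic spaces have homeomorphic function spaces -/
def cpdCongr {X Z : Type u} [TopologicalSpace X] [TopologicalSpace Z] (e : X ≃ₜ Z) :
    CpD Z ≃ₜ CpD X where
  toFun f := ⟨fun x => f.1 (e x), f.2.comp e.continuous⟩
  invFun g := ⟨fun z => g.1 (e.symm z), g.2.comp e.symm.continuous⟩
  left_inv f := by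
    apply Subtype.ext
    funext z
    simp
  right_inv g := by
    apply Subtype.ext
    funext z
    simp
  continuous_toFun := by
    apply Continuous.subtype_mk
    rw [continuous_pi_iff]
    intro x
    exact (continuous_apply (e x)).comp continuous_subtype_val
  continuous_invFun := by
    apply Continuous.subtype_mk
    rw [continuous_pi_iff]
    intro x
    exact (continuous_apply (e.symm x)).comp continuous_subtype_val

/-- **Negative answer to Q1.**

(A) Let `κ` be an uncountable cardinal, let `X` be an uncountable zero-dimensional space in which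
intersections of at most `κ` open sets are open and all of whose finite powers have Lindelof
degree at most `κ`, and let `Y` be a countable zero-dimensional space (possibly empty). Then the
disjoint sum `Z` of `X` and `Y` is zero-dimensional and `C_p(Z, 𝔻)` is a k-space which is neither
sequential nor Frechet-Urysohn.

(B) For every uncountable cardinal `κ` there is an (uncountable) Boolean topological group `G`
without isolated points which satisfies all the hypotheses on `X` in (A); its function space
`C_p(G, 𝔻)` is a k-space which is neither sequential nor Frechet-Urysohn. -/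
theorem result :
    (∀ (κ : Cardinal.{u}) (X Y : Type u) [TopologicalSpace X] [TopologicalSpace Y]
      [Uncountable X] [Countable Y], ℵ₀ < κ → ZeroDim X → ZeroDim Y → IsPSpace κ X →
      (∀ n : ℕ, LindelofDegreeLE κ (Fin n → X)) →
      ZeroDim (X ⊕ Y) ∧ CompactlyCoherentSpace (CpD (X ⊕ Y)) ∧
        ¬ SequentialSpace (CpD (X ⊕ Y)) ∧ ¬ FrechetUrysohnSpace (CpD (X ⊕ Y))) ∧
    (∀ κ : Cardinal.{u}, ℵ₀ < κ →
      ∃ (G : Type u) (_ : AddCommGroup G) (_ : TopologicalSpace G),
        IsTopologicalAddGroup G ∧ (∀ g : G, g + g = 0) ∧ (∀ g : G, ¬ IsOpen {g}) ∧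
        Uncountable G ∧ ZeroDim G ∧ IsPSpace κ G ∧ (∀ n : ℕ, LindelofDegreeLE κ (Fin n → G)) ∧
        CompactlyCoherentSpace (CpD G) ∧
        ¬ SequentialSpace (CpD G) ∧ ¬ FrechetUrysohnSpace (CpD G)) := by
  constructor
  · intro κ X Y _ _ _ _ hκ hX hY hP hL
    have hns : ¬ SequentialSpace (CpD (X ⊕ Y)) := not_sequential hκ X Y hX hP
    have := coherent_main hκ.le X Y hP hL
    exact ⟨zeroDim_sum hX hY, coherent_homeo (sumHomeo X Y), hns, fun h => hns inferInstance⟩
  · intro κ hκ
    have hF : Fact (ℵ₀ ≤ κ) := ⟨hκ.le⟩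
    let I : Type u := Set κ.out
    have hI : κ < #I := by
      have h1 : #I = 2 ^ κ := by
        simp only [I, Cardinal.mk_set, Cardinal.mk_out]
      rw [h1]
      exact Cardinal.cantor κ
    let _ : TopologicalSpace (BoxGroup κ I) := boxTop
    have hunc : Uncountable (BoxGroup κ I) := uncountable_box hI
    have e : BoxGroup κ I ⊕ PEmpty.{u + 1} ≃ₜ BoxGroup κ I := Homeomorph.sumEmpty _ _
    have e' : CpD (BoxGroup κ I) ≃ₜ CpD (BoxGroup κ I ⊕ PEmpty.{u + 1}) := cpdCongr e
    have hns' : ¬ SequentialSpace (CpD (BoxGroup κ I ⊕ PEmpty.{u + 1})) :=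
      not_sequential hκ _ _ zeroDim_box pspace_box
    have hns : ¬ SequentialSpace (CpD (BoxGroup κ I)) := by
      intro h
      exact hns' e'.isQuotientMap.sequentialSpace
    have hc : CompactlyCoherentSpace (CpD (BoxGroup κ I) × CpD PEmpty.{u + 1}) :=
      coherent_main hκ.le _ _ pspace_box lindelof_pow_box
    have hc' : CompactlyCoherentSpace (CpD (BoxGroup κ I ⊕ PEmpty.{u + 1})) :=
      coherent_homeo (sumHomeo _ _)
    exact ⟨BoxGroup κ I, inferInstance, boxTop, topologicalGroup_box, add_self_box,
      crowded_box hI, hunc, zeroDim_box, pspace_box, lindelof_pow_box,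
      coherent_homeo e'.symm, hns, fun h => hns inferInstance⟩

end Pool.Agent.Results.MP_110f0a_gt.KSpaceNotFrechet
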