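import Pool.Agent.Helper56.Cp.Diag

set_option autoImplicit false

open Pool.Agent.Helper56.Cp

universe u

/-- **Positive answer to Q2.** Let `X` be any topological space (in particular any
zero-dimensional space). If `C_p(X, 𝔻)` is sequential then it is Frechet-Urysohn. -/
theorem Pool.Agent.Results.MP_110f0a_gt.SequentialImpliesFrechet.result
    (X : Type u) [TopologicalSpace X] (h : SequentialSpace (CpD X)) :
    FrechetUrysohnSpace (CpD X) :=
  frechet
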